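import Mathlib

/-!
Points of a shifted lattice in a ball of a norm (helper46, job 536 of helper767).
-/

set_option autoImplicit false

open MeasureTheory Set Metric
open scoped Pointwise

namespace Pool.Agent.Y46.HC

section

variable {r : ℕ} {p : (Fin r → ℝ) → ℝ}

lemma p_zero (hh : ∀ (t : ℝ) θ, p (t • θ) = |t| * p θ) : p 0 = 0 := by
  have h := hh 0 0
  rwa [zero_smul, abs_zero, zero_mul] at h

lemma p_neg (hh : ∀ (t : ℝ) θ, p (t • θ) = |t| * p θ) (θ : Fin r → ℝ) : p (-θ) = p θ := by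
  have h := hh (-1) θ
  rwa [neg_one_smul, abs_neg, abs_one, one_mul] at h

lemma p_nonneg (hs : ∀ θ θ', p (θ + θ') ≤ p θ + p θ')
    (hh : ∀ (t : ℝ) θ, p (t • θ) = |t| * p θ) (θ : Fin r → ℝ) : 0 ≤ p θ := by
  have h := hs θ (-θ)
  rw [add_neg_cancel, p_zero hh, p_neg hh] at h
  linarith

lemma p_lower (hc : Continuous p) (hs : ∀ θ θ', p (θ + θ') ≤ p θ + p θ')
    (hh : ∀ (t : ℝ) θ, p (t • θ) = |t| * p θ) (hd : ∀ θ, p θ = 0 → θ = 0) :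
    ∃ c : ℝ, 0 < c ∧ ∀ θ, c * ‖θ‖ ≤ p θ := by
  rcases (sphere (0 : Fin r → ℝ) 1).eq_empty_or_nonempty with he | hne
  · refine ⟨1, one_pos, fun θ => ?_⟩
    have h0 : θ = 0 := by
      by_contra h
      have h1 : (‖θ‖⁻¹ • θ) ∈ sphere (0 : Fin r → ℝ) 1 := by
        rw [mem_sphere_zero_iff_norm, norm_smul, norm_inv, norm_norm,
          inv_mul_cancel₀ (norm_ne_zero_iff.2 h)]
      rw [he] at h1
      exact h1
    rw [h0, norm_zero, mul_zero, p_zero hh]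
  · obtain ⟨θ₁, h1, h2⟩ := (isCompact_sphere (0 : Fin r → ℝ) 1).exists_isMinOn hne hc.continuousOn
    have hθ1 : θ₁ ≠ 0 := by
      rintro rfl
      simp at h1
    have hpos : 0 < p θ₁ := lt_of_le_of_ne (p_nonneg hs hh _) (fun h => hθ1 (hd _ h.symm))
    refine ⟨p θ₁, hpos, fun θ => ?_⟩
    by_cases h : θ = 0
    · rw [h, norm_zero, mul_zero, p_zero hh]
    · have hn : 0 < ‖θ‖ := norm_pos_iff.2 h
      have h3 : (‖θ‖⁻¹ • θ) ∈ sphere (0 : Fin r → ℝ) 1 := by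
        rw [mem_sphere_zero_iff_norm, norm_smul, norm_inv, norm_norm, inv_mul_cancel₀ hn.ne']
      have h4 : p θ₁ ≤ p (‖θ‖⁻¹ • θ) := h2 h3
      rw [hh, abs_of_pos (inv_pos.2 hn)] at h4
      calc p θ₁ * ‖θ‖ ≤ (‖θ‖⁻¹ * p θ) * ‖θ‖ := by gcongr
        _ = p θ := by field_simp

lemma ball_compact (hc : Continuous p) (hs : ∀ θ θ', p (θ + θ') ≤ p θ + p θ')
    (hh : ∀ (t : ℝ) θ, p (t • θ) = |t| * p θ) (hd : ∀ θ, p θ = 0 → θ = 0) (V : ℝ) :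
    IsCompact {θ | p θ ≤ V} := by
  obtain ⟨c, hc0, hc1⟩ := p_lower hc hs hh hd
  refine Metric.isCompact_of_isClosed_isBounded (isClosed_le hc continuous_const) ?_
  refine (isBounded_closedBall (x := (0 : Fin r → ℝ)) (r := V / c)).subset ?_
  intro θ hθ
  rw [mem_closedBall_zero_iff, le_div_iff₀ hc0, mul_comm]
  exact (hc1 θ).trans hθ

lemma ball_smul (hs : ∀ θ θ', p (θ + θ') ≤ p θ + p θ')
    (hh : ∀ (t : ℝ) θ, p (t • θ) = |t| * p θ) (hd : ∀ θ, p θ = 0 → θ = 0) {V : ℝ} (hV : 0 ≤ V) :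
    {θ | p θ ≤ V} = V • {θ | p θ ≤ 1} := by
  rcases hV.eq_or_lt with rfl | hV
  · have hne : {θ | p θ ≤ 1}.Nonempty := ⟨0, by
      show p 0 ≤ 1
      rw [p_zero hh]; exact zero_le_one⟩
    rw [zero_smul_set hne]
    ext θ
    rw [mem_ofPred_eq, Set.mem_zero]
    constructor
    · intro h
      exact hd θ (le_antisymm h (p_nonneg hs hh θ))
    · rintro rfl
      rw [p_zero hh]
  · ext θ
    rw [mem_smul_set_iff_inv_smul_mem₀ hV.ne', mem_ofPred_eq, mem_ofPred_eq, hh,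
      abs_of_pos (inv_pos.2 hV), inv_mul_le_iff₀ hV, mul_one]

lemma vol_ball (hs : ∀ θ θ', p (θ + θ') ≤ p θ + p θ')
    (hh : ∀ (t : ℝ) θ, p (t • θ) = |t| * p θ) (hd : ∀ θ, p θ = 0 → θ = 0) {V : ℝ} (hV : 0 ≤ V) :
    (volume {θ | p θ ≤ V}).toReal = V ^ r * (volume {θ | p θ ≤ 1}).toReal := by
  rw [ball_smul hs hh hd hV, Measure.addHaar_smul, ENNReal.toReal_mul, Module.finrank_fin_fun,
    ENNReal.toReal_ofReal (abs_nonneg _), abs_of_nonneg (by positivity)]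

lemma lat_finite (hc : Continuous p) (hs : ∀ θ θ', p (θ + θ') ≤ p θ + p θ')
    (hh : ∀ (t : ℝ) θ, p (t • θ) = |t| * p θ) (hd : ∀ θ, p θ = 0 → θ = 0) (θ₀ : Fin r → ℝ)
    (V : ℝ) : {m : Fin r → ℤ | p (fun i => θ₀ i + m i) ≤ V}.Finite := by
  obtain ⟨c, hc0, hc1⟩ := p_lower hc hs hh hd
  refine (Set.finite_Icc (fun _ : Fin r => -⌈V / c + ‖θ₀‖⌉)
    (fun _ : Fin r => ⌈V / c + ‖θ₀‖⌉)).subset ?_
  intro m hm
  have h1 : ‖fun i => θ₀ i + (m i : ℝ)‖ ≤ V / c := by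
    rw [le_div_iff₀ hc0, mul_comm]
    exact (hc1 _).trans hm
  have h2 : ∀ i, |(m i : ℝ)| ≤ V / c + ‖θ₀‖ := by
    intro i
    have h3 := (norm_le_pi_norm (fun i => θ₀ i + (m i : ℝ)) i).trans h1
    have h4 := norm_le_pi_norm θ₀ i
    rw [Real.norm_eq_abs] at h3 h4
    calc |(m i : ℝ)| = |(θ₀ i + m i) - θ₀ i| := by rw [add_sub_cancel_left]
      _ ≤ |θ₀ i + m i| + |θ₀ i| := abs_sub _ _
      _ ≤ V / c + ‖θ₀‖ := add_le_add h3 h4
  have h5 : ∀ i, |m i| ≤ ⌈V / c + ‖θ₀‖⌉ := by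
    intro i
    have h6 := (h2 i).trans (Int.le_ceil _)
    exact_mod_cast h6
  exact ⟨fun i => (abs_le.1 (h5 i)).1, fun i => (abs_le.1 (h5 i)).2⟩

lemma p_upper (hc : Continuous p) (hh : ∀ (t : ℝ) θ, p (t • θ) = |t| * p θ) :
    ∃ c : ℝ, 0 ≤ c ∧ ∀ θ, ‖θ‖ ≤ 1 → p θ ≤ c := by
  obtain ⟨θ₁, _, h2⟩ := (isCompact_closedBall (0 : Fin r → ℝ) 1).exists_isMaxOn
    ⟨0, by simp⟩ hc.continuousOn
  refine ⟨p θ₁, ?_, fun θ hθ => h2 (by rwa [mem_closedBall_zero_iff])⟩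
  have h3 : p 0 ≤ p θ₁ := h2 (by simp)
  rwa [p_zero hh] at h3

lemma lat_card (hc : Continuous p) (hs : ∀ θ θ', p (θ + θ') ≤ p θ + p θ')
    (hh : ∀ (t : ℝ) θ, p (t • θ) = |t| * p θ) (hd : ∀ θ, p θ = 0 → θ = 0) {c : ℝ}
    (hcc : ∀ θ, ‖θ‖ ≤ 1 → p θ ≤ c) (θ₀ : Fin r → ℝ) {V : ℝ} (hV : c ≤ V) :
    (V - c) ^ r * (volume {θ | p θ ≤ 1}).toReal ≤
      (Nat.card {m : Fin r → ℤ | p (fun i => θ₀ i + m i) ≤ V} : ℝ) := by
  have hfin := lat_finite hc hs hh hd θ₀ V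
  set S := hfin.toFinset with hS
  have hcard : Nat.card {m : Fin r → ℤ | p (fun i => θ₀ i + m i) ≤ V} = S.card := by
    rw [Nat.card_coe_set_eq, Set.ncard_eq_toFinset_card _ hfin]
  rw [hcard, ← vol_ball hs hh hd (sub_nonneg.2 hV)]
  set Bx : (Fin r → ℤ) → Set (Fin r → ℝ) := fun m =>
    Set.pi univ (fun i => Ico (θ₀ i + m i) (θ₀ i + m i + 1)) with hBx
  have hsub : {θ | p θ ≤ V - c} ⊆ ⋃ m ∈ S, Bx m := by
    intro θ hθ
    set m : Fin r → ℤ := fun i => ⌊θ i - θ₀ i⌋ with hm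
    have h1 : ∀ i, θ₀ i + m i ≤ θ i ∧ θ i < θ₀ i + m i + 1 := by
      intro i
      have h2 := Int.floor_le (θ i - θ₀ i)
      have h3 := Int.lt_floor_add_one (θ i - θ₀ i)
      exact ⟨by rw [hm]; simp only; linarith, by rw [hm]; simp only; linarith⟩
    rw [mem_iUnion₂]
    refine ⟨m, ?_, fun i _ => h1 i⟩
    rw [hS, Set.Finite.mem_toFinset]
    show p (fun i => θ₀ i + m i) ≤ V
    have h4 : (fun i => θ₀ i + (m i : ℝ)) = θ + fun i => (θ₀ i + m i - θ i) := by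
      funext i
      simp
    have h5 : ‖fun i => (θ₀ i + (m i : ℝ) - θ i)‖ ≤ 1 := by
      rw [pi_norm_le_iff_of_nonneg zero_le_one]
      intro i
      rw [Real.norm_eq_abs, abs_le]
      obtain ⟨h6, h7⟩ := h1 i
      exact ⟨by linarith, by linarith⟩
    rw [h4]
    calc p (θ + fun i => (θ₀ i + m i - θ i)) ≤ p θ + p (fun i => (θ₀ i + m i - θ i)) := hs _ _
      _ ≤ (V - c) + c := add_le_add hθ (hcc _ h5)
      _ = V := by ring
  have hvol : ∀ m, volume (Bx m) = 1 := by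
    intro m
    rw [hBx]
    simp only
    rw [Real.volume_pi_Ico]
    simp
  have hle : volume {θ | p θ ≤ V - c} ≤ (S.card : ENNReal) := by
    calc volume {θ | p θ ≤ V - c} ≤ volume (⋃ m ∈ S, Bx m) := measure_mono hsub
      _ ≤ ∑ m ∈ S, volume (Bx m) := measure_biUnion_finset_le _ _
      _ = (S.card : ENNReal) := by
        rw [Finset.sum_congr rfl (fun m _ => hvol m), Finset.sum_const, nsmul_eq_mul, mul_one]
  have h8 := ENNReal.toReal_mono (ENNReal.natCast_ne_top _) hle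
  rwa [ENNReal.toReal_natCast] at h8

theorem lat (hc : Continuous p) (hs : ∀ θ θ', p (θ + θ') ≤ p θ + p θ')
    (hh : ∀ (t : ℝ) θ, p (t • θ) = |t| * p θ) (hd : ∀ θ, p θ = 0 → θ = 0) :
    (volume {θ | p θ ≤ 1} ≠ ⊤ ∧ 0 < (volume {θ | p θ ≤ 1}).toReal) ∧
    (∀ V : ℝ, 0 ≤ V → IsCompact {θ | p θ ≤ V}) ∧
    (∀ V : ℝ, 0 ≤ V → (volume {θ | p θ ≤ V}).toReal = V ^ r * (volume {θ | p θ ≤ 1}).toReal) ∧
    ∃ c : ℝ, 0 ≤ c ∧ ∀ (θ₀ : Fin r → ℝ) (V : ℝ), c ≤ V →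
      {m : Fin r → ℤ | p (fun i => θ₀ i + m i) ≤ V}.Finite ∧
      (V - c) ^ r * (volume {θ | p θ ≤ 1}).toReal ≤
        (Nat.card {m : Fin r → ℤ | p (fun i => θ₀ i + m i) ≤ V} : ℝ) := by
  have htop : volume {θ | p θ ≤ 1} ≠ ⊤ := (ball_compact hc hs hh hd 1).measure_lt_top.ne
  obtain ⟨c, hc0, hcc⟩ := p_upper hc hh
  refine ⟨⟨htop, ENNReal.toReal_pos ?_ htop⟩, fun V _ => ball_compact hc hs hh hd V,
    fun V hV => vol_ball hs hh hd hV, c, hc0, fun θ₀ V hV =>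
      ⟨lat_finite hc hs hh hd θ₀ V, lat_card hc hs hh hd hcc θ₀ hV⟩⟩
  have h1 : IsOpen {θ | p θ < 1} := isOpen_lt hc continuous_const
  have h2 : 0 < volume {θ | p θ < 1} := h1.measure_pos volume ⟨0, by
    show p 0 < 1
    rw [p_zero hh]; exact one_pos⟩
  exact (h2.trans_le (measure_mono fun θ (hθ : p θ < 1) => hθ.le)).ne'

end

end Pool.Agent.Y46.HC
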