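import Pool.Agent.Y767.HC.Stm2
import Pool.Agent.Y46.HC.LatAux

set_option autoImplicit false

namespace Pool.Agent.Y46.HC

/-- `StLat` of `Pool.Agent.Y767.HC.Stm2`. -/
theorem t_lat : Pool.Agent.Y767.StLat := by
  intro r p hc hs hh hd
  exact lat hc hs hh hd

end Pool.Agent.Y46.HC
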