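import Pool.Agent.Y767.HC.Stm2
import Pool.Agent.Y772.SG.Sgn

/-!
The infinity type of a Hecke character is unique (helper46, job 534 of helper767).
-/

set_option autoImplicit false

open NumberField Complex Filter Topology

namespace Pool.Agent.Y46.HC

open Pool.Agent.Y773 Pool.Agent.Y772.SG Pool.Agent.Y767

lemma lim_log {N c : ℝ} (hN : 0 < N) (hc : 0 < c) :
    Tendsto (fun Y : ℝ => Real.log (1 + N * (c + 1) * Y) - Real.log (1 + N * c * Y)) atTop
      (𝓝 (Real.log ((c + 1) / c))) := by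
  have h1 : Tendsto (fun Y : ℝ => (c + 1) / c - (1 / c) / (1 + N * c * Y)) atTop
      (𝓝 ((c + 1) / c - 0)) := by
    refine tendsto_const_nhds.sub ?_
    refine Tendsto.div_atTop tendsto_const_nhds ?_
    exact tendsto_atTop_add_const_left _ _ (tendsto_id.const_mul_atTop (by positivity))
  rw [sub_zero] at h1
  have h2 := h1.log (by positivity : (c + 1) / c ≠ 0)
  refine h2.congr' ?_
  filter_upwards [eventually_gt_atTop 0] with Y hY
  have h3 : 0 < 1 + N * c * Y := by positivity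
  have h4 : 0 < 1 + N * (c + 1) * Y := by positivity
  rw [← Real.log_div h4.ne' h3.ne']
  congr 1
  field_simp
  ring

lemma lim_log0 {N c a : ℝ} (ha0 : 0 ≤ a) (ha1 : a < 1) :
    Tendsto (fun k : ℕ => Real.log (1 + N * (c + 1) * a ^ k) - Real.log (1 + N * c * a ^ k)) atTop
      (𝓝 0) := by
  have h1 := tendsto_pow_atTop_nhds_zero_of_lt_one ha0 ha1
  have h2 : ∀ b : ℝ, Tendsto (fun k : ℕ => Real.log (1 + b * a ^ k)) atTop (𝓝 0) := by
    intro b
    have h3 : Tendsto (fun k : ℕ => 1 + b * a ^ k) atTop (𝓝 (1 + b * 0)) :=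
      (h1.const_mul b).const_add 1
    rw [mul_zero, add_zero] at h3
    have h4 := h3.log one_ne_zero
    rwa [Real.log_one] at h4
  have h5 := (h2 (N * (c + 1))).sub (h2 (N * c))
  rwa [sub_zero] at h5

/-- `StUniq` of `Pool.Agent.Y767.HC.Stm2`. -/
theorem t_uniq : StUniq := by
  intro K _ _ _ 𝔣 μ hf hμ
  classical
  funext w₁
  obtain ⟨y, hy1, hy2⟩ := exists_large w₁
  set N : ℕ := Ideal.absNorm 𝔣 with hN
  have hN0 : 1 ≤ N := Nat.one_le_iff_ne_zero.2 (by rwa [hN, Ne, Ideal.absNorm_eq_zero_iff])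
  have hN1 : (0 : ℝ) < N := by exact_mod_cast hN0
  set a : InfinitePlace K → ℝ := fun w => (rl w (y : K)) ^ 2 with ha
  have ha0 : ∀ w, 0 ≤ a w := fun w => sq_nonneg _
  have hval : ∀ (c k : ℕ) (w : InfinitePlace K),
      rl w ((1 + (N : 𝓞 K) * ((c : 𝓞 K) * y ^ (2 * k)) : 𝓞 K) : K) = 1 + N * c * a w ^ k := by
    intro c k w
    push_cast
    rw [map_add, map_mul, map_mul, map_one, map_pow, map_natCast, map_natCast, pow_mul]
    ring
  have hpos : ∀ (c k : ℕ) (w : InfinitePlace K), 0 < 1 + (N : ℝ) * c * a w ^ k := by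
    intro c k w
    have := pow_nonneg (ha0 w) k
    positivity
  have hS : ∀ (c k : ℕ),
      cexp (I * ((∑ w, μ w * Real.log (1 + N * c * a w ^ k) : ℝ) : ℂ)) = 1 := by
    intro c k
    have h1 := hμ (1 + (N : 𝓞 K) * ((c : 𝓞 K) * y ^ (2 * k)))
      (by
        rw [add_sub_cancel_left]
        exact Ideal.mul_mem_right _ _ (Ideal.absNorm_mem 𝔣))
      ((tpos_iff _).2 fun w => by rw [hval]; exact hpos c k w)
    unfold ax at h1
    have h2 : ∀ w : InfinitePlace K,
        w ((1 + (N : 𝓞 K) * ((c : 𝓞 K) * y ^ (2 * k)) : 𝓞 K) : K) = 1 + N * c * a w ^ k := by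
      intro w
      rw [← abs_rl, hval, abs_of_pos (hpos c k w)]
    simp_rw [h2] at h1
    exact h1
  -- the limit
  have hlim : ∀ c : ℕ, 1 ≤ c →
      cexp (I * ((μ w₁ * Real.log (((c : ℝ) + 1) / c) : ℝ) : ℂ)) = 1 := by
    intro c hc
    have hc0 : (0 : ℝ) < c := by exact_mod_cast hc
    have h1 : Tendsto (fun k : ℕ => ∑ w, μ w * (Real.log (1 + N * ((c : ℝ) + 1) * a w ^ k) -
        Real.log (1 + N * c * a w ^ k))) atTop
        (𝓝 (∑ w, if w = w₁ then μ w₁ * Real.log (((c : ℝ) + 1) / c) else 0)) := by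
      refine tendsto_finset_sum _ fun w _ => ?_
      by_cases hw : w = w₁
      · rw [if_pos hw, hw]
        refine Tendsto.const_mul _ ?_
        have h4 : 1 < a w₁ := by
          rw [ha]
          simp only
          rw [← sq_abs]
          nlinarith
        exact (lim_log hN1 hc0).comp (tendsto_pow_atTop_atTop_of_one_lt h4)
      · rw [if_neg hw]
        have h4 : a w < 1 := by
          rw [ha]
          simp only
          rw [← sq_abs]
          have := hy2 w hw
          nlinarith [abs_nonneg (rl w (y : K))]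
        have h5 := (lim_log0 (N := N) (c := c) (ha0 w) h4).const_mul (μ w)
        rwa [mul_zero] at h5
    rw [Finset.sum_ite_eq' Finset.univ w₁, if_pos (Finset.mem_univ _)] at h1
    have h2 : Tendsto (fun k : ℕ => cexp (I * ((∑ w, μ w *
        (Real.log (1 + N * ((c : ℝ) + 1) * a w ^ k) -
        Real.log (1 + N * c * a w ^ k)) : ℝ) : ℂ))) atTop
        (𝓝 (cexp (I * ((μ w₁ * Real.log (((c : ℝ) + 1) / c) : ℝ) : ℂ)))) := by
      have h3 : Continuous fun t : ℝ => cexp (I * (t : ℂ)) := by fun_prop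
      exact (h3.tendsto _).comp h1
    refine tendsto_nhds_unique h2 (tendsto_const_nhds.congr fun k => ?_)
    have h6 : (∑ w, μ w * (Real.log (1 + N * ((c : ℝ) + 1) * a w ^ k) -
        Real.log (1 + N * c * a w ^ k)) : ℝ) =
        (∑ w, μ w * Real.log (1 + N * ((c + 1 : ℕ) : ℝ) * a w ^ k)) -
          ∑ w, μ w * Real.log (1 + N * c * a w ^ k) := by
      rw [← Finset.sum_sub_distrib]
      refine Finset.sum_congr rfl fun w _ => ?_
      push_cast
      ring
    rw [h6, Complex.ofReal_sub, mul_sub, Complex.exp_sub, hS, hS, div_one]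
  -- conclusion
  set c : ℕ := ⌈|μ w₁|⌉₊ + 1 with hc
  have hc1 : 1 ≤ c := Nat.le_add_left _ _
  have hcμ : |μ w₁| < c := by
    rw [hc]
    push_cast
    linarith [Nat.le_ceil |μ w₁|]
  have hc0 : (0 : ℝ) < c := by exact_mod_cast hc1
  have hlog0 : 0 < Real.log (((c : ℝ) + 1) / c) := Real.log_pos (by
    rw [lt_div_iff₀ hc0]; linarith)
  have hlog1 : Real.log (((c : ℝ) + 1) / c) ≤ 1 / c := by
    have h1 := Real.log_le_sub_one_of_pos (show 0 < ((c : ℝ) + 1) / c by positivity)
    have h2 : ((c : ℝ) + 1) / c - 1 = 1 / c := by field_simp; ring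
    linarith
  have h1 := hlim c hc1
  rw [Complex.exp_eq_one_iff] at h1
  obtain ⟨n, hn⟩ := h1
  set θ : ℝ := μ w₁ * Real.log (((c : ℝ) + 1) / c) with hθ
  have h2 : θ = n * (2 * Real.pi) := by
    have h3 : I * (θ : ℂ) = I * ((n * (2 * Real.pi) : ℝ) : ℂ) := by
      rw [hn]
      push_cast
      ring
    exact Complex.ofReal_injective (mul_left_cancel₀ Complex.I_ne_zero h3)
  have h4 : |θ| < 1 := by
    rw [hθ, abs_mul, abs_of_pos hlog0]
    calc |μ w₁| * Real.log (((c : ℝ) + 1) / c) ≤ |μ w₁| * (1 / c) := by gcongr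
      _ = |μ w₁| / c := by rw [mul_one_div]
      _ < 1 := by rw [div_lt_one hc0]; exact hcμ
  have h5 : n = 0 := by
    by_contra hne
    have h6 : (1 : ℝ) ≤ |(n : ℝ)| := by exact_mod_cast Int.one_le_abs hne
    rw [h2, abs_mul, abs_of_pos (by positivity : 0 < 2 * Real.pi)] at h4
    have := Real.pi_gt_three
    nlinarith
  rw [h5, Int.cast_zero, zero_mul] at h2
  rcases mul_eq_zero.1 (hθ.symm.trans h2) with h7 | h7
  · exact h7
  · exact absurd h7 hlog0.ne'

end Pool.Agent.Y46.HC
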